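import Pool.Agent.X119.CC.Stm

/-! Project CC: Rolle with sign changes. -/

set_option autoImplicit false

namespace Pool.Agent.X4.CC

open Filter Topology Pool.Agent.X119.CC

theorem mv {F F' : ℝ → ℝ} (hF : ∀ u, HasDerivAt F (F' u) u) {a b c : ℝ} (hab : a < b)
    (h : 0 < (F b - F a) * c) : ∃ v, a < v ∧ v < b ∧ 0 < F' v * c := by
  obtain ⟨v, hv, h1⟩ := exists_hasDerivAt_eq_slope F F' hab
    (fun x _ => (hF x).continuousAt.continuousWithinAt) (fun x _ => hF x)
  refine ⟨v, hv.1, hv.2, ?_⟩
  have h2 : 0 < b - a := by linarith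
  rw [h1, div_mul_eq_mul_div]
  exact div_pos h h2

theorem small {F : ℝ → ℝ} {l : Filter ℝ} (h : Tendsto F l (𝓝 0)) {c : ℝ} (hc : c ≠ 0) :
    ∀ᶠ w in l, |F w| < |c| := by
  have h1 := (tendsto_zero_iff_abs_tendsto_zero F).1 h
  exact h1.eventually_lt_const (abs_pos.2 hc)

theorem rolle : S_ROLLE := by
  intro F F' m hF hT hB ⟨u, hu, hne, halt⟩
  have hA : ∀ j, ∃ v, j ≤ m → (v < u j ∧ (∀ i, i + 1 = j → u i < v) ∧ 0 < F' v * F (u j)) := by
    intro j
    by_cases hj : j ≤ m
    · rcases Nat.eq_zero_or_pos j with h0 | h0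
      · subst h0
        obtain ⟨w, hw1, hw2⟩ := ((small hB (hne 0 hj)).and (eventually_lt_atBot (u 0))).exists
        obtain ⟨v, hv1, hv2, hv3⟩ := mv hF (c := F (u 0)) hw2 (by
          have h1 : F w * F (u 0) ≤ |F w| * |F (u 0)| := by
            rw [← abs_mul]; exact le_abs_self _
          have h2 : |F w| * |F (u 0)| < |F (u 0)| * |F (u 0)| :=
            mul_lt_mul_of_pos_right hw1 (abs_pos.2 (hne 0 hj))
          have h3 : |F (u 0)| * |F (u 0)| = F (u 0) * F (u 0) := abs_mul_abs_self _
          linarith)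
        exact ⟨v, fun _ => ⟨hv2, fun i hi => absurd hi (by omega), hv3⟩⟩
      · obtain ⟨i, rfl⟩ : ∃ i, j = i + 1 := ⟨j - 1, by omega⟩
        obtain ⟨v, hv1, hv2, hv3⟩ := mv hF (c := F (u (i + 1))) (hu (Nat.lt_succ_self i)) (by
          have h1 := halt i (by omega)
          have h2 : 0 < F (u (i + 1)) * F (u (i + 1)) := mul_self_pos.2 (hne (i + 1) hj)
          linarith)
        exact ⟨v, fun _ => ⟨hv2, fun k hk => by
          have : k = i := by omega
          rw [this]
          exact hv1, hv3⟩⟩
    · exact ⟨0, fun h => absurd h hj⟩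
  choose a ha using hA
  obtain ⟨w, hw1, hw2⟩ := ((small hT (hne m le_rfl)).and (eventually_gt_atTop (u m))).exists
  obtain ⟨b, hb1, hb2, hb3⟩ := mv hF (c := -F (u m)) hw2 (by
    have h1 : F w * F (u m) ≤ |F w| * |F (u m)| := by
      rw [← abs_mul]; exact le_abs_self _
    have h2 : |F w| * |F (u m)| < |F (u m)| * |F (u m)| :=
      mul_lt_mul_of_pos_right hw1 (abs_pos.2 (hne m le_rfl))
    have h3 : |F (u m)| * |F (u m)| = F (u m) * F (u m) := abs_mul_abs_self _
    linarith)
  refine ⟨fun j => if j ≤ m then a j else b + ((j : ℝ) - (m + 1)), ?_, ?_, ?_⟩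
  · apply strictMono_nat_of_lt_succ
    intro j
    rcases lt_trichotomy j m with h | h | h
    · rw [if_pos (by omega), if_pos (by omega)]
      exact (ha j (by omega)).1.trans ((ha (j + 1) (by omega)).2.1 j rfl)
    · subst h
      rw [if_pos le_rfl, if_neg (by omega)]
      have h1 := (ha j le_rfl).1
      push_cast
      linarith
    · rw [if_neg (by omega), if_neg (by omega)]
      push_cast
      linarith
  · intro j hj
    show F' (if j ≤ m then a j else b + ((j : ℝ) - (m + 1))) ≠ 0
    by_cases h : j ≤ m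
    · rw [if_pos h]
      intro h0
      have := (ha j h).2.2
      rw [h0, zero_mul] at this
      exact lt_irrefl _ this
    · rw [if_neg h]
      have : j = m + 1 := by omega
      subst this
      intro h0
      have e : b + (((m + 1 : ℕ) : ℝ) - (m + 1)) = b := by push_cast; ring
      rw [e] at h0
      rw [h0, zero_mul] at hb3
      exact lt_irrefl _ hb3
  · intro j hj
    show F' (if j ≤ m then a j else b + ((j : ℝ) - (m + 1))) *
      F' (if j + 1 ≤ m then a (j + 1) else b + (((j + 1 : ℕ) : ℝ) - (m + 1))) < 0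
    rw [if_pos (by omega : j ≤ m)]
    have h1 := (ha j (by omega)).2.2
    by_cases h : j + 1 ≤ m
    · rw [if_pos h]
      have h2 := (ha (j + 1) h).2.2
      have h3 := halt j (by omega)
      have h4 := mul_pos h1 h2
      by_contra hcon
      push Not at hcon
      have h5 : F' (a j) * F (u j) * (F' (a (j + 1)) * F (u (j + 1))) =
          (F' (a j) * F' (a (j + 1))) * (F (u j) * F (u (j + 1))) := by ring
      rw [h5] at h4
      have h6 := mul_nonpos_of_nonneg_of_nonpos hcon h3.le
      linarith
    · have hjm : j = m := by omega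
      subst hjm
      rw [if_neg h]
      have e : b + (((j + 1 : ℕ) : ℝ) - (j + 1)) = b := by push_cast; ring
      rw [e]
      have h4 := mul_pos h1 hb3
      have h5 : F' (a j) * F (u j) * (F' b * -F (u j)) = -((F' (a j) * F' b) * (F (u j) * F (u j))) := by ring
      rw [h5] at h4
      have h6 : 0 < F (u j) * F (u j) := mul_self_pos.2 (hne j le_rfl)
      by_contra hcon
      push Not at hcon
      have h7 := mul_nonneg hcon h6.le
      linarith

end Pool.Agent.X4.CC
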